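import Pool.Agent.W492.TS.Unit

/-!
# Lifting a t-structure along a jointly conservative family of triangulated functors
-/

set_option linter.unusedSectionVars false
set_option linter.style.haveILetI false

open CategoryTheory Limits Triangulated Pretriangulated

namespace Pool.Agent.W492.TS

universe v u v' u' w

variable {T : Type u} [Category.{v} T] [HasZeroObject T] [HasShift T ℤ] [Preadditive T]
  [∀ n : ℤ, (shiftFunctor T n).Additive] [Pretriangulated T] [IsTriangulated T]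
  {I : Type w} {D : I → Type u'} [∀ i, Category.{v'} (D i)] [∀ i, HasZeroObject (D i)]
  [∀ i, HasShift (D i) ℤ] [∀ i, Preadditive (D i)]
  [∀ i, ∀ n : ℤ, (shiftFunctor (D i) n).Additive] [∀ i, Pretriangulated (D i)]
  [∀ i, IsTriangulated (D i)]
  (R : ∀ i, T ⥤ D i) [∀ i, (R i).CommShift ℤ] [∀ i, (R i).IsTriangulated]
  (s : ∀ i, TStructure (D i))

/-- all realisations of `X` are `≤ n`. -/
def RLE (n : ℤ) : ObjectProperty T := fun X => ∀ i, (s i).le n ((R i).obj X)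

/-- all realisations of `X` are `≥ n`. -/
def RGE (n : ℤ) : ObjectProperty T := fun X => ∀ i, (s i).ge n ((R i).obj X)

/-- `M` sits in a distinguished triangle `A → M → B → A⟦1⟧` such that all realisations of `A` are
`≤ n` and all realisations of `B` are `≥ n + 1` : the truncation triangles of the realisations of
`M` lift to `T`. -/
def LiftsAt (n : ℤ) (M : T) : Prop :=
  ∃ (A B : T) (f : A ⟶ M) (g : M ⟶ B) (h : B ⟶ A⟦(1 : ℤ)⟧),
    Triangle.mk f g h ∈ distTriang T ∧ RLE R s n A ∧ RGE R s (n + 1) B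

/-- the family of the `R i` is jointly conservative. -/
def JointlyConservative : Prop :=
  ∀ ⦃X Y : T⦄ (f : X ⟶ Y), (∀ i, IsIso ((R i).map f)) → IsIso f

variable {R s}

theorem JointlyConservative.isZero (hcons : JointlyConservative R) {X : T}
    (hX : ∀ i, IsZero ((R i).obj X)) : IsZero X := by
  have h1 : IsIso (0 : X ⟶ X) := hcons _ fun i => by
    rw [(R i).map_zero]
    exact (hX i).isIso (hX i) _
  rw [IsZero.iff_id_eq_zero]
  have h2 : (0 : X ⟶ X) ≫ inv (0 : X ⟶ X) = 𝟙 X := IsIso.hom_inv_id _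
  rw [← h2, zero_comp]

variable {C : Type u} [Category.{v} C] [HasZeroObject C] [HasShift C ℤ] [Preadditive C]
  [∀ n : ℤ, (shiftFunctor C n).Additive] [Pretriangulated C] [IsTriangulated C]

theorem RLE.obj₂ {X Y Z : T} {f : X ⟶ Y} {g : Y ⟶ Z} {h : Z ⟶ X⟦(1 : ℤ)⟧}
    (hT : Triangle.mk f g h ∈ distTriang T) {n : ℤ} (hX : RLE R s n X) (hZ : RLE R s n Z) :
    RLE R s n Y := fun i =>
  ((s i).isLE₂ _ ((R i).map_distinguished _ hT) n ⟨hX i⟩ ⟨hZ i⟩).le

theorem RGE.obj₂ {X Y Z : T} {f : X ⟶ Y} {g : Y ⟶ Z} {h : Z ⟶ X⟦(1 : ℤ)⟧}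
    (hT : Triangle.mk f g h ∈ distTriang T) {n : ℤ} (hX : RGE R s n X) (hZ : RGE R s n Z) :
    RGE R s n Y := fun i =>
  ((s i).isGE₂ _ ((R i).map_distinguished _ hT) n ⟨hX i⟩ ⟨hZ i⟩).ge

theorem RLE.shift {X : T} {n a n' : ℤ} (h : a + n' = n) (hX : RLE R s n X) :
    RLE R s n' (X⟦a⟧) := fun i =>
  ((s i).le n').prop_of_iso (((R i).commShiftIso a).app X).symm ((s i).le_shift n a n' h _ (hX i))

theorem RGE.shift {X : T} {n a n' : ℤ} (h : a + n' = n) (hX : RGE R s n X) :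
    RGE R s n' (X⟦a⟧) := fun i =>
  ((s i).ge n').prop_of_iso (((R i).commShiftIso a).app X).symm ((s i).ge_shift n a n' h _ (hX i))

theorem RLE.of_iso {X Y : T} (e : X ≅ Y) {n : ℤ} (hX : RLE R s n X) : RLE R s n Y := fun i =>
  ((s i).le n).prop_of_iso ((R i).mapIso e) (hX i)

theorem RGE.of_iso {X Y : T} (e : X ≅ Y) {n : ℤ} (hX : RGE R s n X) : RGE R s n Y := fun i =>
  ((s i).ge n).prop_of_iso ((R i).mapIso e) (hX i)

theorem RLE.mono {X : T} {n m : ℤ} (h : n ≤ m) (hX : RLE R s n X) : RLE R s m X := fun i =>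
  (s i).le_monotone h _ (hX i)

theorem RGE.anti {X : T} {n m : ℤ} (h : n ≤ m) (hX : RGE R s m X) : RGE R s n X := fun i =>
  (s i).ge_antitone h _ (hX i)

theorem RLE.obj₃ {X Y Z : T} {f : X ⟶ Y} {g : Y ⟶ Z} {h : Z ⟶ X⟦(1 : ℤ)⟧}
    (hT : Triangle.mk f g h ∈ distTriang T) {n : ℤ} (hX : RLE R s (n + 1) X)
    (hY : RLE R s n Y) : RLE R s n Z :=
  RLE.obj₂ (rot_of_distTriang _ hT) hY (hX.shift (by ring))

theorem RGE.obj₁ {X Y Z : T} {f : X ⟶ Y} {g : Y ⟶ Z} {h : Z ⟶ X⟦(1 : ℤ)⟧}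
    (hT : Triangle.mk f g h ∈ distTriang T) {n : ℤ} (hY : RGE R s n Y)
    (hZ : RGE R s (n - 1) Z) : RGE R s n X :=
  RGE.obj₂ (inv_rot_of_distTriang _ hT) (hZ.shift (by ring)) hY

theorem isZero_of_RLE_RGE (hcons : JointlyConservative R) {X : T} {n m : ℤ} (h : n < m)
    (h1 : RLE R s n X) (h2 : RGE R s m X) : IsZero X :=
  hcons.isZero fun i => by
    have h3 : (s i).IsLE ((R i).obj X) n := ⟨h1 i⟩
    have h4 : (s i).IsGE ((R i).obj X) m := ⟨h2 i⟩
    exact (s i).isZero ((R i).obj X) n m h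

/-- Orthogonality is automatic: if the fibre of `f : X ⟶ Y` has a truncation triangle, `X` is
`≤ n` and `Y` is `≥ n + 1`, then `f = 0`. -/
theorem hom_zero_of_lifts (hcons : JointlyConservative R) {n : ℤ} {E X Y : T} {a : E ⟶ X}
    {f : X ⟶ Y} {b : Y ⟶ E⟦(1 : ℤ)⟧} (hT : Triangle.mk a f b ∈ distTriang T)
    (hE : LiftsAt R s n E) (hX : RLE R s n X) (hY : RGE R s (n + 1) Y) : f = 0 := by
  obtain ⟨P, Q, p, q, r, hPQ, hP, hQ⟩ := hE
  obtain ⟨K, c, d, hK⟩ := distinguished_cocone_triangle (p ≫ a)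
  have oct := someOctahedron rfl hPQ hT hK
  have hK1 : RGE R s (n + 1) K := RGE.obj₂ oct.mem hQ hY
  have hK2 : RLE R s n K := RLE.obj₃ hK (hP.mono (by omega)) hX
  have hK0 : IsZero K := isZero_of_RLE_RGE hcons (by omega) hK2 hK1
  have hiso : IsIso (p ≫ a) := (Triangle.isZero₃_iff_isIso₁ _ hK).1 hK0
  have haf : a ≫ f = 0 := comp_distTriang_mor_zero₁₂ _ hT
  rw [← cancel_epi (p ≫ a), Category.assoc, haf, comp_zero, comp_zero]

/-- The t-structure whose `≤ n` (resp. `≥ n`) objects are those whose realisations are so, under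
the assumption that the family of realisations is jointly conservative and that the truncation
triangles lift. -/
def liftTStructure (hcons : JointlyConservative R) (hl : ∀ M : T, LiftsAt R s 0 M) :
    TStructure T where
  le n := RLE R s n
  ge n := RGE R s n
  le_isClosedUnderIsomorphisms n := ⟨fun e h => RLE.of_iso e h⟩
  ge_isClosedUnderIsomorphisms n := ⟨fun e h => RGE.of_iso e h⟩
  le_shift _ _ _ h _ hX := hX.shift h
  ge_shift _ _ _ h _ hX := hX.shift h
  zero' X Y f hX hY := by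
    obtain ⟨E, a, b, hT⟩ := distinguished_cocone_triangle₁ f
    exact hom_zero_of_lifts hcons hT (hl E) hX hY
  le_zero_le _ hX := hX.mono (by norm_num)
  ge_one_le _ hX := hX.anti (by norm_num)
  exists_triangle_zero_one M := by
    obtain ⟨A, B, f, g, h, hT, hA, hB⟩ := hl M
    exact ⟨A, B, hA, hB, f, g, h, hT⟩

/-- A triangulated functor reflecting zero objects reflects isomorphisms. -/
theorem reflects_of_isZero {C : Type u'} [Category.{v'} C] [HasZeroObject C] [HasShift C ℤ]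
    [Preadditive C] [∀ n : ℤ, (shiftFunctor C n).Additive] [Pretriangulated C] (F : T ⥤ C)
    [F.CommShift ℤ] [F.IsTriangulated] (h : ∀ X : T, IsZero (F.obj X) → IsZero X) :
    F.ReflectsIsomorphisms where
  reflects {X Y} f hf := by
    obtain ⟨Z, g, d, hT⟩ := distinguished_cocone_triangle f
    have h1 := F.map_distinguished _ hT
    have h2 : IsZero (F.obj Z) := (Triangle.isZero₃_iff_isIso₁ _ h1).2 hf
    exact (Triangle.isZero₃_iff_isIso₁ _ hT).1 (h Z h2)

/-- Under the lifted t-structure, `X` is `≤ n` as soon as one conservative realisation is. -/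
theorem RLE_of_one (hl : ∀ M : T, LiftsAt R s 0 M) (i : I)
    (hi : ∀ X : T, IsZero ((R i).obj X) → IsZero X) {n : ℤ} {X : T}
    (hX : (s i).le n ((R i).obj X)) : RLE R s n X := by
  obtain ⟨A, B, f, g, h, hT, hA, hB⟩ := hl (X⟦n⟧)
  have hX' : (s i).IsLE ((R i).obj (X⟦n⟧)) 0 :=
    ⟨((s i).le 0).prop_of_iso (((R i).commShiftIso n).app X).symm ((s i).le_shift n n 0 (by ring) _ hX)⟩
  have hBi : (s i).IsLE ((R i).obj B) 0 := by
    have hA' : (s i).IsLE ((R i).obj A) 0 := ⟨hA i⟩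
    have hA'' : (s i).IsLE ((R i).obj A) (0 + 1) := (s i).isLE_of_le _ 0 (0 + 1)
    exact isLE_obj₃ (s i) ((R i).map_distinguished _ hT) 0 hA'' hX'
  have hBi' : (s i).IsGE ((R i).obj B) 1 := ⟨hB i⟩
  have hB0 : IsZero B := hi B ((s i).isZero _ 0 1)
  have hiso : IsIso f := (Triangle.isZero₃_iff_isIso₁ _ hT).1 hB0
  have h1 : RLE R s 0 (X⟦n⟧) := RLE.of_iso (asIso f) hA
  have h2 : RLE R s n (X⟦n⟧⟦-n⟧) := h1.shift (by ring)
  exact RLE.of_iso ((shiftEquiv T n).unitIso.symm.app X) h2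

theorem RGE_of_one (hl : ∀ M : T, LiftsAt R s 0 M) (i : I)
    (hi : ∀ X : T, IsZero ((R i).obj X) → IsZero X) {n : ℤ} {X : T}
    (hX : (s i).ge n ((R i).obj X)) : RGE R s n X := by
  obtain ⟨A, B, f, g, h, hT, hA, hB⟩ := hl (X⟦n - 1⟧)
  have hX' : (s i).IsGE ((R i).obj (X⟦n - 1⟧)) 1 :=
    ⟨((s i).ge 1).prop_of_iso (((R i).commShiftIso (n - 1)).app X).symm
      ((s i).ge_shift n (n - 1) 1 (by ring) _ hX)⟩
  have hAi : (s i).IsGE ((R i).obj A) 1 := by
    have hB' : (s i).IsGE ((R i).obj B) 1 := ⟨hB i⟩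
    have hB'' : (s i).IsGE ((R i).obj B) (1 - 1) := (s i).isGE_of_ge _ (1 - 1) 1
    exact isGE_obj₁ (s i) ((R i).map_distinguished _ hT) 1 hX' hB''
  have hAi' : (s i).IsLE ((R i).obj A) 0 := ⟨hA i⟩
  have hA0 : IsZero A := hi A ((s i).isZero _ 0 1)
  have hiso : IsIso g := (Triangle.isZero₁_iff_isIso₂ _ hT).1 hA0
  have h1 : RGE R s 1 (X⟦n - 1⟧) := RGE.of_iso (asIso g).symm hB
  have h2 : RGE R s n (X⟦n - 1⟧⟦-(n - 1)⟧) := h1.shift (by ring)
  exact RGE.of_iso ((shiftEquiv T (n - 1)).unitIso.symm.app X) h2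

end Pool.Agent.W492.TS
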