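import Pool.Agent.W492.TS.Unit

/-!
# Tensor t-structures and conservativity
-/

set_option linter.unusedSectionVars false
set_option linter.style.haveILetI false

open CategoryTheory Limits MonoidalCategory Triangulated Pretriangulated

namespace Pool.Agent.W492.TS

universe v u v' u'

variable {T : Type u} [Category.{v} T] [HasZeroObject T] [HasShift T ℤ] [Preadditive T]
  [∀ n : ℤ, (shiftFunctor T n).Additive] [Pretriangulated T] [IsTriangulated T]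
  [MonoidalCategory T] [SymmetricCategory T] [RightRigidCategory T]
  [∀ X : T, (tensorLeft X).CommShift ℤ] [∀ X : T, (tensorLeft X).IsTriangulated]
  {t : TStructure T}

/-- the dual of an object of the heart is `≤ 0`. -/
theorem isLE_dual (hnd : NonDegenerate t) (hten : HeartTensorExact t) {X : T} (h1 : t.IsLE X 0)
    (h2 : t.IsGE X 0) : t.IsLE (Xᘁ) 0 := by
  have hu := (unit_mem_heart hnd hten).1
  rw [t.isLE_iff_orthogonal 0 1 rfl]
  intro Y f hY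
  have h3 : t.IsGE ((tensorLeft X).obj Y) 1 := hten.isGE h1 h2 hY
  have h4 : (ρ_ (Xᘁ)).hom ≫ f = 0 := by
    apply ((tensorLeftAdjunction X Xᘁ).homEquiv (𝟙_ T) Y).injective
    rw [Adjunction.homEquiv_unit, Adjunction.homEquiv_unit, Functor.map_zero, comp_zero]
    exact t.zero _ 0 1
  rwa [← cancel_epi (ρ_ (Xᘁ)).hom, comp_zero]

/-- For a nonzero object `X` of the heart, the cone of the evaluation `X^∨ ⊗ X ⟶ 𝟙` is `≤ -1`. -/
theorem isLE_cone_evaluation (hnd : NonDegenerate t) (hten : HeartTensorExact t)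
    (hone : ∀ e : 𝟙_ T ⟶ 𝟙_ T, e ≫ e = e → e = 0 ∨ e = 𝟙 _)
    {X : T} (h1 : t.IsLE X 0) (h2 : t.IsGE X 0) (hX : ¬ IsZero X) {C : T} {c : 𝟙_ T ⟶ C}
    {d : C ⟶ (Xᘁ ⊗ X)⟦(1 : ℤ)⟧} (hT : Triangle.mk (ε_ X Xᘁ) c d ∈ distTriang T) :
    t.IsLE C (-1) := by
  obtain ⟨hu1, hu2⟩ := unit_mem_heart hnd hten
  have hP : t.IsLE (Xᘁ ⊗ X) 0 := by
    have : t.IsLE (X ⊗ Xᘁ) 0 := hten.isLE h1 h2 (isLE_dual hnd hten h1 h2)
    exact t.isLE_of_iso (β_ X Xᘁ) 0
  have hC : t.IsLE C 0 := isLE_obj₃ t hT 0 (t.isLE_of_le _ 0 1) hu1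
  -- `X ⊗ C` is `≤ -1`
  obtain ⟨d', hT1⟩ := tensor_triangle X hT
  have hc0 : X ◁ c = 0 := by
    have hsec : ((ρ_ X).hom ≫ (λ_ X).inv ≫ (η_ X Xᘁ) ▷ X ≫ (α_ X Xᘁ X).hom) ≫ X ◁ (ε_ X Xᘁ) =
        𝟙 _ := by
      simp only [Category.assoc]
      have := ExactPairing.evaluation_coevaluation (X := X) (Y := Xᘁ)
      rw [this]
      simp
    have hz : X ◁ (ε_ X Xᘁ) ≫ X ◁ c = 0 := comp_distTriang_mor_zero₁₂ _ hT1
    rw [← Category.id_comp (X ◁ c), ← hsec, Category.assoc, hz, comp_zero]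
  have hXP : t.IsLE (X ⊗ (Xᘁ ⊗ X)) 0 := hten.isLE h1 h2 hP
  have hXC : t.IsLE (X ⊗ C) (-1) := by
    rw [t.isLE_iff_orthogonal (-1) 0 (by ring)]
    intro Y f hY
    obtain ⟨g, hg⟩ := Triangle.yoneda_exact₃ _ hT1 f (by
      change X ◁ c ≫ f = 0
      rw [hc0, zero_comp])
    have h5 : t.IsLE ((X ⊗ (Xᘁ ⊗ X))⟦(1 : ℤ)⟧) (-1) := t.isLE_shift _ 0 1 (-1)
    have h6 : g = 0 := t.zero_of_isLE_of_isGE g (-1) 0 (by norm_num) h5 hY
    rw [hg, h6]
    exact comp_zero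
  -- truncate `C`
  set C' := (t.truncLT 0).obj C with hC'def
  set W := (t.truncGE 0).obj C with hWdef
  have hC'1 : t.IsLE C' (-1) := t.isLE_truncLT_obj C 0 (-1)
  have hW1 : t.IsLE W 0 := inferInstance
  have hW2 : t.IsGE W 0 := inferInstance
  have hT2 : Triangle.mk ((t.truncLTι 0).app C) ((t.truncGEπ 0).app C)
    ((t.truncGEδLT 0).app C) ∈ distTriang T := t.triangleLTGE_distinguished 0 C
  have hXW : IsZero (X ⊗ W) := by
    obtain ⟨d2, hT3⟩ := tensor_triangle X hT2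
    have ha : t.IsLE (X ⊗ C') (-1) := hten.isLE h1 h2 hC'1
    have hb : t.IsLE (X ⊗ W) (-1) := isLE_obj₃ t hT3 (-1) (t.isLE_of_le _ (-1) (-1 + 1)) hXC
    have hc : t.IsGE (X ⊗ W) 0 := hten.isGE h1 h2 hW2
    exact t.isZero _ (-1) 0
  have hWP : IsZero (W ⊗ (Xᘁ ⊗ X)) := by
    have : IsZero (Xᘁ ⊗ (X ⊗ W)) := isZero_tensor _ hXW
    exact this.of_iso (β_ W (Xᘁ ⊗ X) ≪≫ α_ Xᘁ X W)
  obtain ⟨d3, hT4⟩ := tensor_triangle W hT
  have hi1 : IsIso (W ◁ c) := (Triangle.isZero₁_iff_isIso₂ _ hT4).1 hWP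
  have hWC : t.IsGE (W ⊗ C) 0 := by
    have h5 : t.IsGE (W ⊗ 𝟙_ T) 0 := t.isGE_of_iso (ρ_ W).symm 0
    exact t.isGE_of_iso (asIso (W ◁ c)) 0
  have hWW : t.IsGE (W ⊗ W) 0 := hten.isGE hW1 hW2 hW2
  obtain ⟨d4, hT5⟩ := tensor_triangle W hT2
  have hWC' : IsZero (W ⊗ C') := by
    have ha : t.IsLE (W ⊗ C') (-1) := hten.isLE hW1 hW2 hC'1
    have hb : t.IsGE (W ⊗ C') 0 := isGE_obj₁ t hT5 0 hWC (t.isGE_of_ge _ (0 - 1) 0)
    exact t.isZero _ (-1) 0
  have hi2 : IsIso (W ◁ ((t.truncGEπ 0).app C)) := (Triangle.isZero₁_iff_isIso₂ _ hT5).1 hWC'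
  set w : 𝟙_ T ⟶ W := c ≫ (t.truncGEπ 0).app C with hw
  have hi3 : IsIso (W ◁ w) := by
    rw [hw, MonoidalCategory.whiskerLeft_comp]
    infer_instance
  obtain ⟨V, q, r, hT6⟩ := distinguished_cocone_triangle w
  obtain ⟨d5, hT7⟩ := tensor_triangle W hT6
  have hWV : IsZero (W ⊗ V) := (Triangle.isZero₃_iff_isIso₁ _ hT7).2 hi3
  have hq : q = 0 := hom_eq_zero hWV q
  obtain ⟨s, hs⟩ : ∃ s : W ⟶ 𝟙_ T, 𝟙 W = s ≫ w := Triangle.coyoneda_exact₂ _ hT6 (𝟙 W) (by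
    change 𝟙 W ≫ q = 0
    rw [hq, comp_zero])
  have hWzero : IsZero W := by
    rcases hone (w ≫ s) (by
      rw [Category.assoc, ← Category.assoc s w s, ← hs, Category.id_comp]) with h0 | h0
    · rw [IsZero.iff_id_eq_zero]
      calc 𝟙 W = 𝟙 W ≫ 𝟙 W := by rw [Category.id_comp]
        _ = (s ≫ w) ≫ (s ≫ w) := by rw [← hs]
        _ = s ≫ (w ≫ s) ≫ w := by simp only [Category.assoc]
        _ = 0 := by rw [h0, zero_comp, comp_zero]
    · exfalso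
      apply hX
      have h7 : IsZero (X ⊗ 𝟙_ T) :=
        hXW.of_iso (whiskerLeftIso X ⟨w, s, h0, hs.symm⟩)
      exact h7.of_iso (ρ_ X).symm
  rw [t.isLE_iff_isZero_truncGE_obj (-1) 0 (by ring)]
  exact hWzero

/-! ### realisation functors -/

section
variable {D : Type u'} [Category.{v'} D] [HasZeroObject D] [HasShift D ℤ] [Preadditive D]
  [∀ n : ℤ, (shiftFunctor D n).Additive] [Pretriangulated D] [IsTriangulated D]

/-- `R` is t-exact. -/
def TExact (t : TStructure T) (s : TStructure D) (R : T ⥤ D) : Prop :=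
  ∀ (n : ℤ) (X : T), (t.le n X → s.le n (R.obj X)) ∧ (t.ge n X → s.ge n (R.obj X))

variable [MonoidalCategory D] [MonoidalPreadditive D]
  (R : T ⥤ D) [R.CommShift ℤ] [R.IsTriangulated] [R.Monoidal] {s : TStructure D}

theorem map_triangle {A B C : T} {f : A ⟶ B} {g : B ⟶ C} {h : C ⟶ A⟦(1 : ℤ)⟧}
    (hT : Triangle.mk f g h ∈ distTriang T) :
    ∃ h' : R.obj C ⟶ (R.obj A)⟦(1 : ℤ)⟧, Triangle.mk (R.map f) (R.map g) h' ∈ distTriang D :=
  ⟨_, R.map_distinguished _ hT⟩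

theorem isZero_of_heart (hnd : NonDegenerate t) (hten : HeartTensorExact t)
    (hone : ∀ e : 𝟙_ T ⟶ 𝟙_ T, e ≫ e = e → e = 0 ∨ e = 𝟙 _) (hex : TExact t s R)
    (hD : ¬ IsZero (𝟙_ D)) {X : T} (h1 : t.IsLE X 0) (h2 : t.IsGE X 0)
    (hR : IsZero (R.obj X)) : IsZero X := by
  by_contra hX
  obtain ⟨C, c, d, hT⟩ := distinguished_cocone_triangle (ε_ X Xᘁ)
  have hC := isLE_cone_evaluation hnd hten hone h1 h2 hX hT
  obtain ⟨hu1, hu2⟩ := unit_mem_heart hnd hten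
  obtain ⟨d', hT'⟩ := map_triangle R hT
  have hRP : IsZero (R.obj (Xᘁ ⊗ X)) := by
    have h3 : IsZero (R.obj Xᘁ ⊗ R.obj X) := (tensorLeft (R.obj Xᘁ)).map_isZero hR
    exact h3.of_iso (Functor.Monoidal.μIso R Xᘁ X).symm
  have hRC : s.IsLE (R.obj C) (-1) := ⟨(hex (-1) C).1 hC.le⟩
  have hRu1 : s.IsLE (R.obj (𝟙_ T)) (-1) :=
    s.isLE₂ _ hT' (-1) (s.isLE_of_isZero hRP _) hRC
  have hRu2 : s.IsGE (R.obj (𝟙_ T)) 0 := ⟨(hex 0 _).2 hu2.ge⟩
  exact hD ((s.isZero (R.obj (𝟙_ T)) (-1) 0).of_iso (Functor.Monoidal.εIso R))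

/-- truncations of an object killed by a t-exact functor are killed by it. -/
theorem isZero_map_trunc (hex : TExact t s R) {M : T} (hM : IsZero (R.obj M)) (n : ℤ) :
    IsZero (R.obj ((t.truncLT n).obj M)) ∧ IsZero (R.obj ((t.truncGE n).obj M)) := by
  have hT : Triangle.mk ((t.truncLTι n).app M) ((t.truncGEπ n).app M)
    ((t.truncGEδLT n).app M) ∈ distTriang T := t.triangleLTGE_distinguished n M
  obtain ⟨d', hT'⟩ := map_triangle R hT
  have hA : s.IsLE (R.obj ((t.truncLT n).obj M)) (n - 1) :=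
    ⟨(hex _ _).1 (t.isLE_truncLT_obj M n (n - 1)).le⟩
  have hB : s.IsGE (R.obj ((t.truncGE n).obj M)) n :=
    ⟨(hex _ _).2 (t.isGE_truncGE_obj M n n).ge⟩
  have hB' : s.IsLE (R.obj ((t.truncGE n).obj M)) (n - 1) :=
    isLE_obj₃ s hT' (n - 1) (s.isLE_of_le _ (n - 1) (n - 1 + 1)) (s.isLE_of_isZero hM _)
  have hBz : IsZero (R.obj ((t.truncGE n).obj M)) := s.isZero _ (n - 1) n
  have hA' : s.IsGE (R.obj ((t.truncLT n).obj M)) n :=
    isGE_obj₁ s hT' n (s.isGE_of_isZero hM _) (s.isGE_of_isZero hBz _)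
  exact ⟨s.isZero _ (n - 1) n, hBz⟩

/-- A t-exact tensor functor on a rigid tensor triangulated category with a non-degenerate tensor
t-structure is conservative. -/
theorem isZero_of_isZero_map (hnd : NonDegenerate t) (hten : HeartTensorExact t)
    (hone : ∀ e : 𝟙_ T ⟶ 𝟙_ T, e ≫ e = e → e = 0 ∨ e = 𝟙 _) (hex : TExact t s R)
    (hD : ¬ IsZero (𝟙_ D)) {M : T} (hM : IsZero (R.obj M)) : IsZero M := by
  have step : ∀ (M : T), IsZero (R.obj M) → ∀ n : ℤ, t.IsGE M n → t.IsGE M (n + 1) := by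
    intro M hM n hn
    rw [t.isGE_iff_isZero_truncLT_obj (n + 1)]
    set N := (t.truncLT (n + 1)).obj M with hN
    have hRN : IsZero (R.obj N) := (isZero_map_trunc R hex hM (n + 1)).1
    have hN1 : t.IsLE N n := t.isLE_truncLT_obj M (n + 1) n
    have hN2 : t.IsGE N n := inferInstance
    have hN1' : t.IsLE (N⟦n⟧) 0 := t.isLE_shift N n n 0
    have hN2' : t.IsGE (N⟦n⟧) 0 := t.isGE_shift N n n 0
    have hRN' : IsZero (R.obj (N⟦n⟧)) :=
      ((shiftFunctor D n).map_isZero hRN).of_iso ((R.commShiftIso n).app N)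
    have h0 := isZero_of_heart R hnd hten hone hex hD hN1' hN2' hRN'
    have h3 : IsZero (N⟦n⟧⟦-n⟧) := (shiftFunctor T (-n)).map_isZero h0
    exact h3.of_iso ((shiftEquiv T n).unitIso.app N)
  have bdd : ∀ (M : T), IsZero (R.obj M) → ∀ n : ℤ, t.IsGE M n → IsZero M := by
    intro M hM n hn
    apply hnd.2
    have key : ∀ m : ℕ, t.IsGE M (n + m) := by
      intro m
      induction m with
      | zero => simpa using hn
      | succ m ih =>
        have := step M hM _ ih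
        rwa [Nat.cast_succ, ← add_assoc]
    intro m
    have h1 := key (m - n).toNat
    exact (t.isGE_of_ge _ m (n + (m - n).toNat)).ge
  apply hnd.1
  intro n
  rw [t.le_iff_isLE, t.isLE_iff_isZero_truncGE_obj n (n + 1) rfl]
  exact bdd _ (isZero_map_trunc R hex hM (n + 1)).2 (n + 1) inferInstance

end

end Pool.Agent.W492.TS
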