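import Pool.Agent.W492.TS.Gen

/-!
# Generation by objects concentrated in one degree
-/

set_option linter.unusedSectionVars false
set_option linter.style.haveILetI false

open CategoryTheory Limits Triangulated Pretriangulated ZeroObject

namespace Pool.Agent.W492.TS

universe v u v' u' w

variable {T : Type u} [Category.{v} T] [HasZeroObject T] [HasShift T ℤ] [Preadditive T]
  [∀ n : ℤ, (shiftFunctor T n).Additive] [Pretriangulated T] [IsTriangulated T]
  {I : Type w} {D : I → Type u'} [∀ i, Category.{v'} (D i)] [∀ i, HasZeroObject (D i)]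
  [∀ i, HasShift (D i) ℤ] [∀ i, Preadditive (D i)]
  [∀ i, ∀ n : ℤ, (shiftFunctor (D i) n).Additive] [∀ i, Pretriangulated (D i)]
  [∀ i, IsTriangulated (D i)]
  (R : ∀ i, T ⥤ D i) [∀ i, (R i).CommShift ℤ] [∀ i, (R i).IsTriangulated]
  (s : ∀ i, TStructure (D i))

/-- all realisations of `X` are concentrated in degree `n`. -/
def RDeg (n : ℤ) : ObjectProperty T := fun X => RLE R s n X ∧ RGE R s n X

/-- `T` is the smallest strictly full triangulated subcategory containing `𝒜`. -/
def Generated (𝒜 : ObjectProperty T) : Prop :=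
  ∀ P : ObjectProperty T, P.IsClosedUnderIsomorphisms → P.IsTriangulated → 𝒜 ≤ P → ∀ M, P M

/-- Every extension `M` of an object concentrated in degree `n` by a subobject concentrated in
a larger degree `m` has a truncation triangle at `n`. -/
def TwoStep : Prop :=
  ∀ (n m : ℤ), n < m → ∀ (X M Y : T) (f : X ⟶ M) (g : M ⟶ Y) (h : Y ⟶ X⟦(1 : ℤ)⟧),
    Triangle.mk f g h ∈ distTriang T → RDeg R s m X → RDeg R s n Y → LiftsAt R s n M

variable {R s}

theorem swap_of_twoStep (hcons : JointlyConservative R) (h2 : TwoStep R s) :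
    Swap (RDeg R s) := by
  intro n m hnm X M Y f g h hT hX hY
  obtain ⟨P, Q, p, q, r, hT', hP, hQ⟩ := h2 n m hnm X M Y f g h hT hX hY
  have hM1 : RGE R s n M := RGE.obj₂ hT (hX.2.anti hnm.le) hY.2
  have hM2 : RLE R s m M := RLE.obj₂ hT hX.1 (hY.1.mono hnm.le)
  have hP2 : RGE R s n P := RGE.obj₁ hT' hM1 (hQ.anti (by omega))
  have hQ2 : RLE R s m Q := RLE.obj₃ hT' (hP.mono (by omega)) hM2
  refine ⟨P, Q, p, q, r, hT', ⟨hP, hP2⟩, hQ2, ?_⟩
  by_cases hm : m = n + 1
  · rw [hm]; exact hQ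
  · -- `P ≅ Y`, hence `Q ≅ X`
    obtain ⟨K, a, b, hK⟩ := distinguished_cocone_triangle (p ≫ g)
    have oct := someOctahedron rfl hT' (rot_of_distTriang _ hT) hK
    have hX1 : RGE R s (m - 1) (X⟦(1 : ℤ)⟧) := hX.2.shift (by ring)
    have hK1 : RGE R s (n + 1) K := RGE.obj₂ oct.mem hQ (hX1.anti (by omega))
    have hK2 : RLE R s n K := RLE.obj₃ hK (hP.mono (by omega)) hY.1
    have hK0 : IsZero K := isZero_of_RLE_RGE hcons (by omega) hK2 hK1
    have hK3 : RGE R s m K := fun i => ((s i).isGE_of_isZero ((R i).map_isZero hK0) m).ge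
    exact RGE.obj₁ oct.mem hK3 hX1

theorem RDeg.shift {X : T} {n a n' : ℤ} (h : a + n' = n) (hX : RDeg R s n X) :
    RDeg R s n' (X⟦a⟧) := ⟨hX.1.shift h, hX.2.shift h⟩

theorem filt_single {n : ℤ} {X : T} (hX : RDeg R s n X) : Filt (RDeg R s) [n] X :=
  ⟨X, 0, 𝟙 X, 0, 0, contractible_distinguished X, hX, isZero_zero T⟩

theorem Filt.shift {l : List ℤ} {M : T} (hM : Filt (RDeg R s) l M) (a : ℤ) :
    Filt (RDeg R s) (l.map (· - a)) (M⟦a⟧) := by
  induction l generalizing M with
  | nil => exact (shiftFunctor T a).map_isZero hM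
  | cons n l ih =>
    obtain ⟨X, M', f, g, h, hT, hX, hM'⟩ := hM
    exact ⟨X⟦a⟧, M'⟦a⟧, _, _, _, Triangle.shift_distinguished _ hT a, hX.shift (by ring), ih hM'⟩

/-- iterated extensions of objects concentrated in one degree. -/
def Built : ObjectProperty T := fun M => ∃ l, Filt (RDeg R s) l M

theorem built_isoClosed : (Built (R := R) (s := s)).IsClosedUnderIsomorphisms :=
  ⟨fun e ⟨l, hl⟩ => ⟨l, hl.of_iso e⟩⟩

theorem built_triangulated : (Built (R := R) (s := s)).IsTriangulated := by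
  haveI := built_isoClosed (R := R) (s := s)
  haveI h1 : (Built (R := R) (s := s)).ContainsZero :=
    ⟨⟨0, isZero_zero T, ⟨[], isZero_zero T⟩⟩⟩
  haveI h2 : (Built (R := R) (s := s)).IsStableUnderShift ℤ :=
    ⟨fun a => ⟨fun X ⟨l, hl⟩ => ⟨_, hl.shift a⟩⟩⟩
  haveI h3 : (Built (R := R) (s := s)).IsTriangulatedClosed₂ :=
    ObjectProperty.IsTriangulatedClosed₂.mk' fun t ht ⟨l, hl⟩ ⟨l', hl'⟩ =>
      ⟨l ++ l', Filt.concat ht hl hl'⟩
  exact {}

theorem lifts_of_generated (hcons : JointlyConservative R) (h2 : TwoStep R s)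
    (hgen : Generated (RDeg R s 0)) (k : ℤ) (M : T) : LiftsAt R s k M := by
  obtain ⟨l, hl⟩ : Built (R := R) (s := s) M :=
    hgen _ built_isoClosed built_triangulated (fun X hX => ⟨[0], filt_single hX⟩) M
  have hs := Filt.sort (swap_of_twoStep hcons h2) l hl
  obtain ⟨a, b, hab, ha, hb⟩ := exists_split_sorted k (l.insertionSort (· ≤ ·))
    (List.pairwise_insertionSort _ _)
  rw [hab] at hs
  obtain ⟨X, Z, f, g, h, hT, hX, hZ⟩ := hs.split
  refine ⟨X, Z, f, g, h, hT, ?_, ?_⟩
  · refine Filt.of_forall ?_ ?_ ?_ hX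
    · intro Y hY i
      exact ((s i).isLE_of_isZero ((R i).map_isZero hY) k).le
    · intro X Y Z f g h hT hX hZ
      exact RLE.obj₂ hT hX hZ
    · intro n hn Y hY
      exact hY.1.mono (ha n hn)
  · refine Filt.of_forall ?_ ?_ ?_ hZ
    · intro Y hY i
      exact ((s i).isGE_of_isZero ((R i).map_isZero hY) (k + 1)).ge
    · intro X Y Z f g h hT hX hZ
      exact RGE.obj₂ hT hX hZ
    · intro n hn Y hY
      exact hY.2.anti (hb n hn)

theorem generated_of_lifts (hl : ∀ (k : ℤ) (M : T), LiftsAt R s k M)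
    (hb : ∀ M : T, ∃ a b : ℤ, RGE R s a M ∧ RLE R s b M) : Generated (RDeg R s 0) := by
  intro P hP1 hP2 hP M
  have key : ∀ (d : ℕ) (a : ℤ) (M : T), RGE R s a M → RLE R s (a + d) M → P M := by
    intro d
    induction d with
    | zero =>
      intro a M h1 h2
      have h2' : RLE R s a M := by simpa using h2
      have h3 : P (M⟦a⟧) := hP _ ⟨h2'.shift (by ring), h1.shift (by ring)⟩
      have h4 : P (M⟦a⟧⟦-a⟧) := P.le_shift (-a) _ h3
      exact P.prop_of_iso ((shiftEquiv T a).unitIso.symm.app M) h4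
    | succ d ih =>
      intro a M h1 h2
      obtain ⟨A, B, f, g, h, hT, hA, hB⟩ := hl a M
      have hA2 : RGE R s a A := RGE.obj₁ hT h1 (hB.anti (by omega))
      have hB2 : RLE R s (a + 1 + d) B := by
        refine RLE.obj₃ hT (hA.mono (by omega)) ?_
        have : a + 1 + (d : ℤ) = a + ((d + 1 : ℕ) : ℤ) := by push_cast; ring
        rw [this]; exact h2
      have hPB := ih (a + 1) B hB hB2
      have hPA : P A := by
        have h3 : P (A⟦a⟧) := hP _ ⟨hA.shift (by ring), hA2.shift (by ring)⟩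
        have h4 : P (A⟦a⟧⟦-a⟧) := P.le_shift (-a) _ h3
        exact P.prop_of_iso ((shiftEquiv T a).unitIso.symm.app A) h4
      exact P.ext_of_isTriangulatedClosed₂ _ hT hPA hPB
  obtain ⟨a, b, h1, h2⟩ := hb M
  exact key (b - a).toNat a M h1 (h2.mono (by omega))

end Pool.Agent.W492.TS
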