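import Pool.Agent.W492.TS.Crit

/-!
# Retracts of iterated extensions
-/

set_option linter.unusedSectionVars false
set_option linter.style.haveILetI false

open CategoryTheory Limits Triangulated Pretriangulated ZeroObject

namespace Pool.Agent.W492.TS

universe v u v' u' w

section
variable {C : Type u} [Category.{v} C] [HasZeroObject C] [HasShift C ℤ] [Preadditive C]
  [∀ n : ℤ, (shiftFunctor C n).Additive] [Pretriangulated C]

theorem le_retract [IsTriangulated C] (t : TStructure C) {X Y : C} (r : Retract X Y) {n : ℤ}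
    (hY : t.le n Y) : t.le n X := by
  have hY' : t.IsLE Y n := ⟨hY⟩
  rw [t.le_iff_isLE, t.isLE_iff_orthogonal n (n + 1) rfl]
  intro Z f hZ
  rw [← Category.id_comp f, ← r.retract, Category.assoc,
    t.zero_of_isLE_of_isGE (r.r ≫ f) n (n + 1) (by omega) hY' hZ, comp_zero]

theorem ge_retract [IsTriangulated C] (t : TStructure C) {X Y : C} (r : Retract X Y) {n : ℤ}
    (hY : t.ge n Y) : t.ge n X := by
  have hY' : t.IsGE Y n := ⟨hY⟩
  rw [t.ge_iff_isGE, t.isGE_iff_orthogonal (n - 1) n (by ring)]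
  intro Z f hZ
  rw [← Category.comp_id f, ← r.retract, ← Category.assoc,
    t.zero_of_isLE_of_isGE (f ≫ r.i) (n - 1) n (by omega) hZ hY', zero_comp]

/-- splitting an idempotent of a distinguished triangle. -/
theorem exists_retract_triangle [IsIdempotentComplete C] {P M₀ Q M : C} {p : P ⟶ M₀}
    {q : M₀ ⟶ Q} {d : Q ⟶ P⟦(1 : ℤ)⟧} (hT : Triangle.mk p q d ∈ distTriang C) (r : Retract M M₀)
    (h0 : ∀ φ : P ⟶ Q, φ = 0) (h1 : ∀ φ : P ⟶ Q⟦(-1 : ℤ)⟧, φ = 0) :
    ∃ (P' Q' : C) (p' : P' ⟶ M) (q' : M ⟶ Q') (d' : Q' ⟶ P'⟦(1 : ℤ)⟧),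
      Triangle.mk p' q' d' ∈ distTriang C ∧ Nonempty (Retract P' P) ∧
        Nonempty (Retract Q' Q) := by
  have he : (r.r ≫ r.i) ≫ (r.r ≫ r.i) = r.r ≫ r.i := by simp
  obtain ⟨eP, heP⟩ : ∃ eP : P ⟶ P, p ≫ (r.r ≫ r.i) = eP ≫ p :=
    Triangle.coyoneda_exact₂ _ hT (p ≫ (r.r ≫ r.i)) (h0 _)
  have huniq : ∀ a : P ⟶ P, a ≫ p = 0 → a = 0 := by
    intro a ha
    obtain ⟨b, hb⟩ : ∃ b : P ⟶ Q⟦(-1 : ℤ)⟧, a = b ≫ _ :=
      Triangle.coyoneda_exact₂ _ (inv_rot_of_distTriang _ hT) a ha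
    rw [hb, h1 b]
    exact zero_comp
  have heP2 : eP ≫ eP = eP := by
    rw [← sub_eq_zero]
    apply huniq
    rw [Preadditive.sub_comp, Category.assoc, ← heP, ← Category.assoc, ← heP, Category.assoc, he,
      sub_self]
  obtain ⟨P', j, σ, hjσ, hσj⟩ := IsIdempotentComplete.idempotents_split P eP heP2
  have hj : j ≫ eP = j := by rw [← hσj, ← Category.assoc, hjσ, Category.id_comp]
  obtain ⟨B, b, c, hB⟩ := distinguished_cocone_triangle (j ≫ p ≫ r.r)
  have c1 : (j ≫ p ≫ r.r) ≫ r.i = j ≫ p := by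
    rw [Category.assoc, Category.assoc, heP, ← Category.assoc, hj]
  obtain ⟨β, hβ1, hβ2⟩ : ∃ β : B ⟶ Q, b ≫ β = r.i ≫ q ∧ c ≫ j⟦(1 : ℤ)⟧' = β ≫ d :=
    complete_distinguished_triangle_morphism _ _ hB hT j r.i c1
  have c2 : p ≫ r.r = σ ≫ (j ≫ p ≫ r.r) := by
    rw [← Category.assoc σ j, hσj, ← Category.assoc eP p, ← heP, Category.assoc, Category.assoc,
      r.retract, Category.comp_id]
  obtain ⟨γ, hγ1, hγ2⟩ : ∃ γ : Q ⟶ B, q ≫ γ = r.r ≫ b ∧ d ≫ σ⟦(1 : ℤ)⟧' = γ ≫ c :=
    complete_distinguished_triangle_morphism _ _ hT hB σ r.r c2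
  let φ : Triangle.mk (j ≫ p ≫ r.r) b c ⟶ Triangle.mk (j ≫ p ≫ r.r) b c :=
    { hom₁ := 𝟙 P'
      hom₂ := 𝟙 M
      hom₃ := β ≫ γ
      comm₁ := by
        change (j ≫ p ≫ r.r) ≫ 𝟙 M = 𝟙 P' ≫ (j ≫ p ≫ r.r)
        rw [Category.comp_id, Category.id_comp]
      comm₂ := by
        change b ≫ (β ≫ γ) = 𝟙 M ≫ b
        rw [← Category.assoc, hβ1, Category.assoc, hγ1, ← Category.assoc, r.retract]
      comm₃ := by
        change c ≫ (𝟙 P')⟦(1 : ℤ)⟧' = (β ≫ γ) ≫ c
        rw [Category.assoc, ← hγ2, ← Category.assoc, ← hβ2, Category.assoc, ← Functor.map_comp,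
          hjσ] }
  have hiso : IsIso (β ≫ γ) :=
    isIso₃_of_isIso₁₂ φ hB hB (inferInstanceAs (IsIso (𝟙 P'))) (inferInstanceAs (IsIso (𝟙 M)))
  exact ⟨P', B, _, b, c, hB, ⟨⟨j, σ, hjσ⟩⟩, ⟨⟨β, γ ≫ inv (β ≫ γ), by
    rw [← Category.assoc, IsIso.hom_inv_id]⟩⟩⟩

end

variable {T : Type u} [Category.{v} T] [HasZeroObject T] [HasShift T ℤ] [Preadditive T]
  [∀ n : ℤ, (shiftFunctor T n).Additive] [Pretriangulated T] [IsTriangulated T]
  {I : Type w} {D : I → Type u'} [∀ i, Category.{v'} (D i)] [∀ i, HasZeroObject (D i)]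
  [∀ i, HasShift (D i) ℤ] [∀ i, Preadditive (D i)]
  [∀ i, ∀ n : ℤ, (shiftFunctor (D i) n).Additive] [∀ i, Pretriangulated (D i)]
  [∀ i, IsTriangulated (D i)]
  {R : ∀ i, T ⥤ D i} [∀ i, (R i).CommShift ℤ] [∀ i, (R i).IsTriangulated]
  {s : ∀ i, TStructure (D i)}

theorem RDeg.retract {X Y : T} (r : Retract X Y) {n : ℤ} (hY : RDeg R s n Y) : RDeg R s n X :=
  ⟨fun i => le_retract (s i) (r.map (R i)) (hY.1 i), fun i => ge_retract (s i) (r.map (R i)) (hY.2 i)⟩

theorem Filt.RLE {k : ℤ} {l : List ℤ} (hl : ∀ n ∈ l, n ≤ k) {X : T}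
    (hX : Filt (RDeg R s) l X) : RLE R s k X := by
  refine Filt.of_forall ?_ ?_ ?_ hX
  · intro Y hY i
    exact ((s i).isLE_of_isZero ((R i).map_isZero hY) k).le
  · intro X Y Z f g h hT hX hZ
    exact RLE.obj₂ hT hX hZ
  · intro n hn Y hY
    exact hY.1.mono (hl n hn)

theorem Filt.RGE {k : ℤ} {l : List ℤ} (hl : ∀ n ∈ l, k ≤ n) {X : T}
    (hX : Filt (RDeg R s) l X) : RGE R s k X := by
  refine Filt.of_forall ?_ ?_ ?_ hX
  · intro Y hY i
    exact ((s i).isGE_of_isZero ((R i).map_isZero hY) k).ge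
  · intro X Y Z f g h hT hX hZ
    exact RGE.obj₂ hT hX hZ
  · intro n hn Y hY
    exact hY.2.anti (hl n hn)

theorem Built.lifts (hcons : JointlyConservative R) (h2 : TwoStep R s) {M : T}
    (hM : Built (R := R) (s := s) M) (k : ℤ) : LiftsAt R s k M := by
  obtain ⟨l, hl⟩ := hM
  have hs := Filt.sort (swap_of_twoStep hcons h2) l hl
  obtain ⟨a, b, hab, ha, hb⟩ := exists_split_sorted k (l.insertionSort (· ≤ ·))
    (List.pairwise_insertionSort _ _)
  rw [hab] at hs
  obtain ⟨X, Z, f, g, h, hT, hX, hZ⟩ := hs.split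
  exact ⟨X, Z, f, g, h, hT, hX.RLE ha, hZ.RGE hb⟩

theorem Built.orth (hcons : JointlyConservative R) (h2 : TwoStep R s) {P Q : T}
    (hP : Built (R := R) (s := s) P) (hQ : Built (R := R) (s := s) Q) {k : ℤ}
    (hP1 : RLE R s k P) (hQ1 : RGE R s (k + 1) Q) (φ : P ⟶ Q) : φ = 0 := by
  obtain ⟨E, a, b, hT⟩ := distinguished_cocone_triangle₁ φ
  haveI := built_isoClosed (R := R) (s := s)
  haveI := built_triangulated (R := R) (s := s)
  have hE : Built (R := R) (s := s) E :=
    (Built (R := R) (s := s)).ext_of_isTriangulatedClosed₁ _ hT hP hQ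
  exact hom_zero_of_lifts hcons hT (hE.lifts hcons h2 k) hP1 hQ1

theorem Built.retract [IsIdempotentComplete T] (hcons : JointlyConservative R)
    (h2 : TwoStep R s) : ∀ (N : ℕ) (l : List ℤ), l.length ≤ N → l.Pairwise (· ≤ ·) →
    ∀ {M₀ M : T}, Filt (RDeg R s) l M₀ → Retract M M₀ → Built (R := R) (s := s) M := by
  intro N
  induction N with
  | zero =>
    intro l hl _ M₀ M hM₀ r
    obtain rfl : l = [] := List.length_eq_zero_iff.1 (by omega)
    refine ⟨[], ?_⟩
    change IsZero M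
    have hz : IsZero M₀ := hM₀
    rw [IsZero.iff_id_eq_zero, ← r.retract, hz.eq_of_tgt r.i 0, zero_comp]
  | succ N ih =>
    intro l hl hsort M₀ M hM₀ r
    cases l with
    | nil =>
      refine ⟨[], ?_⟩
      change IsZero M
      have hz : IsZero M₀ := hM₀
      rw [IsZero.iff_id_eq_zero, ← r.retract, hz.eq_of_tgt r.i 0, zero_comp]
    | cons n l =>
      obtain ⟨a, b, hab, ha, hb⟩ := exists_split_sorted n (n :: l) hsort
      have hne : a ≠ [] := by
        rintro rfl
        rw [List.nil_append] at hab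
        have := hb n (by rw [← hab]; simp)
        omega
      have hlen : b.length ≤ N := by
        have h3 : (n :: l).length = a.length + b.length := by rw [hab, List.length_append]
        have h4 : 0 < a.length := List.length_pos_iff.2 hne
        omega
      have hbs : b.Pairwise (· ≤ ·) := by
        rw [hab] at hsort
        exact (List.pairwise_append.1 hsort).2.1
      have han : ∀ x ∈ a, n ≤ x := by
        intro x hx
        have hx' : x ∈ n :: l := by rw [hab]; exact List.mem_append_left _ hx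
        rcases List.mem_cons.1 hx' with rfl | hx'
        · exact le_refl _
        · exact (List.pairwise_cons.1 hsort).1 x hx'
      rw [hab] at hM₀
      obtain ⟨P, Q, p, q, d, hT, hP, hQ⟩ := hM₀.split
      have hP1 : RLE R s n P := hP.RLE ha
      have hP2 : RGE R s n P := hP.RGE han
      have hQ1 : RGE R s (n + 1) Q := hQ.RGE hb
      have hPB : Built (R := R) (s := s) P := ⟨a, hP⟩
      have hQB : Built (R := R) (s := s) Q := ⟨b, hQ⟩
      have hQB' : Built (R := R) (s := s) (Q⟦(-1 : ℤ)⟧) := ⟨_, hQ.shift (-1)⟩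
      obtain ⟨P', Q', p', q', d', hT', ⟨rP⟩, ⟨rQ⟩⟩ := exists_retract_triangle hT r
        (fun φ => hPB.orth hcons h2 hQB hP1 hQ1 φ)
        (fun φ => hPB.orth hcons h2 hQB' (hP1.mono (by omega : n ≤ n + 1))
          (hQ1.shift (by ring)) φ)
      have hP' : RDeg R s n P' := RDeg.retract rP ⟨hP1, hP2⟩
      obtain ⟨l', hl'⟩ := ih b hlen hbs hQ rQ
      exact ⟨n :: l', P', Q', p', q', d', hT', hP', hl'⟩

/-- If `T` is idempotent complete and generated as a thick subcategory by the objects whose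
realisations are concentrated in degree zero, every object has truncation triangles. -/
theorem lifts_of_classicalGenerator [IsIdempotentComplete T] (hcons : JointlyConservative R)
    (h2 : TwoStep R s) (hgen : (RDeg R s 0).IsClassicalTriangulatedGenerator) (k : ℤ) (M : T) :
    LiftsAt R s k M := by
  haveI := built_isoClosed (R := R) (s := s)
  haveI := built_triangulated (R := R) (s := s)
  haveI : (Built (R := R) (s := s)).IsStableUnderRetracts := ⟨fun {X Y} r ⟨l, hl⟩ =>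
    Built.retract hcons h2 _ (l.insertionSort (· ≤ ·)) le_rfl (List.pairwise_insertionSort _ _)
      (Filt.sort (swap_of_twoStep hcons h2) l hl) r⟩
  have h3 : (RDeg R s 0).triangEnvelope ≤ Built (R := R) (s := s) :=
    (ObjectProperty.triangEnvelope_le_iff _).2 fun X hX => ⟨[0], filt_single hX⟩
  have h4 : Built (R := R) (s := s) M := by
    apply h3
    rw [(ObjectProperty.isClassicalTriangulatedGenerator_iff _).1 hgen]
    trivial
  exact h4.lifts hcons h2 k

theorem classicalGenerator_of_generated (h : Generated (RDeg R s 0)) :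
    (RDeg R s 0).IsClassicalTriangulatedGenerator := by
  rw [ObjectProperty.isClassicalTriangulatedGenerator_iff]
  haveI : (RDeg R s 0).Nonempty := ⟨⟨0, fun i => ((s i).isLE_of_isZero
    ((R i).map_isZero (isZero_zero T)) 0).le, fun i => ((s i).isGE_of_isZero
    ((R i).map_isZero (isZero_zero T)) 0).ge⟩⟩
  ext M
  refine ⟨fun _ => trivial, fun _ => ?_⟩
  exact h _ inferInstance inferInstance (ObjectProperty.le_triangEnvelope _) M

end Pool.Agent.W492.TS
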