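import Pool.Agent.W492.TS.Cons
import Pool.Agent.W492.TS.Thick

/-!
# Motivic t-structures
-/

set_option linter.unusedSectionVars false
set_option linter.style.haveILetI false

open CategoryTheory Limits MonoidalCategory Triangulated Pretriangulated ZeroObject

namespace Pool.Agent.W492.TS

universe v u v' u' w

section
variable {C : Type u} [Category.{v} C] [HasZeroObject C] [HasShift C ℤ] [Preadditive C]
  [∀ n : ℤ, (shiftFunctor C n).Additive] [Pretriangulated C]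

/-- the t-structure is bounded. -/
def Bounded (t : TStructure C) : Prop :=
  ∀ X, (∃ b, t.le b X) ∧ (∃ a, t.ge a X)

/-- The tensor product is t-exact : `⊗` maps `≤ 0` and `≤ 0` to `≤ 0`, and `≥ 0` and `≥ 0` to
`≥ 0`. -/
def TensorExact [MonoidalCategory C] (t : TStructure C) : Prop :=
  ∀ X Y : C, (t.le 0 X → t.le 0 Y → t.le 0 (X ⊗ Y)) ∧ (t.ge 0 X → t.ge 0 Y → t.ge 0 (X ⊗ Y))

end

variable {T : Type u} [Category.{v} T] [HasZeroObject T] [HasShift T ℤ] [Preadditive T]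
  [∀ n : ℤ, (shiftFunctor T n).Additive] [Pretriangulated T] [IsTriangulated T]
  [MonoidalCategory T] [SymmetricCategory T] [RightRigidCategory T]
  [∀ X : T, (tensorLeft X).CommShift ℤ] [∀ X : T, (tensorLeft X).IsTriangulated]
  {I : Type w} {D : I → Type u'} [∀ i, Category.{v'} (D i)] [∀ i, HasZeroObject (D i)]
  [∀ i, HasShift (D i) ℤ] [∀ i, Preadditive (D i)]
  [∀ i, ∀ n : ℤ, (shiftFunctor (D i) n).Additive] [∀ i, Pretriangulated (D i)]
  [∀ i, IsTriangulated (D i)] [∀ i, MonoidalCategory (D i)] [∀ i, MonoidalPreadditive (D i)]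
  (R : ∀ i, T ⥤ D i) [∀ i, (R i).CommShift ℤ] [∀ i, (R i).IsTriangulated]
  [∀ i, (R i).Monoidal] (s : ∀ i, TStructure (D i))

/-- `t` is non-degenerate, compatible with the tensor product (in the weak sense that tensoring
with an object of the heart is t-exact), and every realisation functor is t-exact. -/
def Motivic (t : TStructure T) : Prop :=
  NonDegenerate t ∧ HeartTensorExact t ∧ ∀ i, TExact t (s i) (R i)

variable {R s}

theorem TensorExact.heart {t : TStructure T} (h : TensorExact t) : HeartTensorExact t := by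
  intro X hX1 hX2 n Y
  constructor
  · intro hY
    have h1 : t.le 0 (X ⊗ Y⟦n⟧) := (h X (Y⟦n⟧)).1 hX1 (t.le_shift n n 0 (by ring) _ hY)
    have h2 : t.le 0 ((X ⊗ Y)⟦n⟧) := (t.le 0).prop_of_iso (((tensorLeft X).commShiftIso n).app Y) h1
    have h3 : t.IsLE ((X ⊗ Y)⟦n⟧) 0 := ⟨h2⟩
    exact (t.isLE_of_shift (X ⊗ Y) n n 0).le
  · intro hY
    have h1 : t.ge 0 (X ⊗ Y⟦n⟧) := (h X (Y⟦n⟧)).2 hX2 (t.ge_shift n n 0 (by ring) _ hY)
    have h2 : t.ge 0 ((X ⊗ Y)⟦n⟧) := (t.ge 0).prop_of_iso (((tensorLeft X).commShiftIso n).app Y) h1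
    have h3 : t.IsGE ((X ⊗ Y)⟦n⟧) 0 := ⟨h2⟩
    exact (t.isGE_of_shift (X ⊗ Y) n n 0).ge

/-- a motivic t-structure forces each realisation functor to be conservative. -/
theorem Motivic.isZero (hone : ∀ e : 𝟙_ T ⟶ 𝟙_ T, e ≫ e = e → e = 0 ∨ e = 𝟙 _)
    (hD : ∀ i, ¬ IsZero (𝟙_ (D i))) {t : TStructure T} (ht : Motivic R s t) (i : I) (X : T)
    (hX : IsZero ((R i).obj X)) : IsZero X :=
  isZero_of_isZero_map (R i) ht.1 ht.2.1 hone (ht.2.2 i) (hD i) hX

theorem Motivic.lifts {t : TStructure T} (ht : Motivic R s t) (n : ℤ) (M : T) :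
    LiftsAt R s n M := by
  obtain ⟨A, B, hA, hB, f, g, h, hT⟩ := t.exists_triangle M n (n + 1) rfl
  exact ⟨A, B, f, g, h, hT, fun i => (ht.2.2 i n A).1 hA, fun i => (ht.2.2 i (n + 1) B).2 hB⟩

/-- the motivic t-structure is determined by the realisations. -/
theorem Motivic.le_iff {t : TStructure T} (ht : Motivic R s t) (i : I)
    (hi : ∀ X : T, IsZero ((R i).obj X) → IsZero X) (n : ℤ) (X : T) :
    t.le n X ↔ (s i).le n ((R i).obj X) := by
  refine ⟨(ht.2.2 i n X).1, fun h => ?_⟩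
  obtain ⟨A, B, hA, hB, f, g, k, hT⟩ := t.exists_triangle X n (n + 1) rfl
  have h1 : (s i).IsLE ((R i).obj B) n := by
    have hA1 : (s i).IsLE ((R i).obj A) n := ⟨(ht.2.2 i n A).1 hA⟩
    have hA2 : (s i).IsLE ((R i).obj A) (n + 1) := (s i).isLE_of_le _ n (n + 1)
    exact isLE_obj₃ (s i) ((R i).map_distinguished _ hT) n hA2 ⟨h⟩
  have h2 : (s i).IsGE ((R i).obj B) (n + 1) := ⟨(ht.2.2 i (n + 1) B).2 hB⟩
  have hB0 : IsZero B := hi B ((s i).isZero _ n (n + 1))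
  have hiso : IsIso f := (Triangle.isZero₃_iff_isIso₁ _ hT).1 hB0
  exact (t.le n).prop_of_iso (asIso f) hA

theorem Motivic.ge_iff {t : TStructure T} (ht : Motivic R s t) (i : I)
    (hi : ∀ X : T, IsZero ((R i).obj X) → IsZero X) (n : ℤ) (X : T) :
    t.ge n X ↔ (s i).ge n ((R i).obj X) := by
  refine ⟨(ht.2.2 i n X).2, fun h => ?_⟩
  obtain ⟨A, B, hA, hB, f, g, k, hT⟩ := t.exists_triangle X (n - 1) n (by ring)
  have h1 : (s i).IsGE ((R i).obj A) n := by
    have hB1 : (s i).IsGE ((R i).obj B) n := ⟨(ht.2.2 i n B).2 hB⟩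
    have hB2 : (s i).IsGE ((R i).obj B) (n - 1) := (s i).isGE_of_ge _ (n - 1) n
    exact isGE_obj₁ (s i) ((R i).map_distinguished _ hT) n ⟨h⟩ hB2
  have h2 : (s i).IsLE ((R i).obj A) (n - 1) := ⟨(ht.2.2 i (n - 1) A).1 hA⟩
  have hA0 : IsZero A := hi A ((s i).isZero _ (n - 1) n)
  have hiso : IsIso g := (Triangle.isZero₁_iff_isIso₂ _ hT).1 hA0
  exact (t.ge n).prop_of_iso (asIso g).symm hB

theorem jointlyConservative_of_one (i : I) (hi : (R i).ReflectsIsomorphisms) :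
    JointlyConservative R := fun _ _ f hf =>
  @isIso_of_reflects_iso _ _ _ _ _ _ f (R i) (hf i) hi

theorem tStructure_ext {t t' : TStructure T} (h1 : ∀ n X, t.le n X ↔ t'.le n X)
    (h2 : ∀ n X, t.ge n X ↔ t'.ge n X) : t = t' := by
  have e1 : t.le = t'.le := by
    funext n X
    exact propext (h1 n X)
  have e2 : t.ge = t'.ge := by
    funext n X
    exact propext (h2 n X)
  cases t
  cases t'
  simp only at e1 e2
  subst e1
  subst e2
  rfl

theorem main [Nonempty I] [IsIdempotentComplete T] (hone : ∀ e : 𝟙_ T ⟶ 𝟙_ T, e ≫ e = e → e = 0 ∨ e = 𝟙 _)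
    (hD : ∀ i, ¬ IsZero (𝟙_ (D i))) (hb : ∀ i, Bounded (s i)) (hs : ∀ i, TensorExact (s i)) :
    List.TFAE [
      ∃ t : TStructure T, NonDegenerate t ∧ TensorExact t ∧ ∀ i, TExact t (s i) (R i),
      ∃ t : TStructure T, NonDegenerate t ∧ HeartTensorExact t ∧ ∀ i, TExact t (s i) (R i),
      ∃ t : TStructure T, Motivic R s t ∧ (∀ t', Motivic R s t' → t' = t) ∧ TensorExact t ∧
        ∀ (i : I) (n : ℤ) (X : T), (t.le n X ↔ (s i).le n ((R i).obj X)) ∧
          (t.ge n X ↔ (s i).ge n ((R i).obj X)),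
      (∀ i, (R i).ReflectsIsomorphisms) ∧ ∀ M : T, LiftsAt R s 0 M,
      JointlyConservative R ∧ ∀ M : T, LiftsAt R s 0 M,
      JointlyConservative R ∧ (RDeg R s 0).IsClassicalTriangulatedGenerator ∧
        TwoStep R s] := by
  have i₀ : I := Classical.arbitrary I
  tfae_have 1 → 2 := fun ⟨t, h1, h2, h3⟩ => ⟨t, h1, h2.heart, h3⟩
  tfae_have 2 → 4 := fun ⟨t, h1, h2, h3⟩ => by
    have ht : Motivic R s t := ⟨h1, h2, h3⟩
    exact ⟨fun i => reflects_of_isZero (R i) (ht.isZero hone hD i), ht.lifts 0⟩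
  tfae_have 4 → 5 := fun ⟨h1, h2⟩ => ⟨jointlyConservative_of_one i₀ (h1 i₀), h2⟩
  tfae_have 5 → 3 := fun ⟨hcons, hl⟩ => by
    let t : TStructure T := liftTStructure hcons hl
    have hRb : ∀ (i : I) (Y : D i), (∀ n, (s i).le n Y) → IsZero Y := by
      intro i Y hY
      obtain ⟨a, ha⟩ := (hb i Y).2
      have h1 : (s i).IsLE Y (a - 1) := ⟨hY _⟩
      have h2 : (s i).IsGE Y a := ⟨ha⟩
      exact (s i).isZero Y (a - 1) a
    have hRa : ∀ (i : I) (Y : D i), (∀ n, (s i).ge n Y) → IsZero Y := by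
      intro i Y hY
      obtain ⟨b, hb'⟩ := (hb i Y).1
      have h1 : (s i).IsGE Y (b + 1) := ⟨hY _⟩
      have h2 : (s i).IsLE Y b := ⟨hb'⟩
      exact (s i).isZero Y b (b + 1)
    have hnd : NonDegenerate t :=
      ⟨fun X hX => hcons.isZero fun i => hRb i _ fun n => hX n i,
        fun X hX => hcons.isZero fun i => hRa i _ fun n => hX n i⟩
    have hte : TensorExact t := fun X Y =>
      ⟨fun hX hY i => ((s i).le 0).prop_of_iso (Functor.Monoidal.μIso (R i) X Y)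
          ((hs i _ _).1 (hX i) (hY i)),
        fun hX hY i => ((s i).ge 0).prop_of_iso (Functor.Monoidal.μIso (R i) X Y)
          ((hs i _ _).2 (hX i) (hY i))⟩
    have ht : Motivic R s t := ⟨hnd, hte.heart, fun i n X => ⟨fun h => h i, fun h => h i⟩⟩
    refine ⟨t, ht, fun t' ht' => ?_, hte, fun i n X =>
      ⟨ht.le_iff i (ht.isZero hone hD i) n X, ht.ge_iff i (ht.isZero hone hD i) n X⟩⟩
    apply tStructure_ext
    · intro n X
      rw [ht'.le_iff i₀ (ht'.isZero hone hD i₀) n X, ht.le_iff i₀ (ht.isZero hone hD i₀) n X]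
    · intro n X
      rw [ht'.ge_iff i₀ (ht'.isZero hone hD i₀) n X, ht.ge_iff i₀ (ht.isZero hone hD i₀) n X]
  tfae_have 3 → 1 := fun ⟨t, h1, _, h2, _⟩ => ⟨t, h1.1, h2, h1.2.2⟩
  tfae_have 3 → 6 := fun ⟨t, h1, _, _, h3⟩ => by
    refine ⟨jointlyConservative_of_one i₀ (reflects_of_isZero (R i₀) (h1.isZero hone hD i₀)),
      classicalGenerator_of_generated (generated_of_lifts h1.lifts fun M => ?_), fun n m _ X M Y f g h _ _ _ => h1.lifts n M⟩
    obtain ⟨⟨b, hb'⟩, ⟨a, ha⟩⟩ := hb i₀ ((R i₀).obj M)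
    have h4 : t.ge a M := (h3 i₀ a M).2.2 ha
    have h5 : t.le b M := (h3 i₀ b M).1.2 hb'
    exact ⟨a, b, fun i => (h3 i a M).2.1 h4, fun i => (h3 i b M).1.1 h5⟩
  tfae_have 6 → 5 := fun ⟨h1, h2, h3⟩ => ⟨h1, fun M => lifts_of_classicalGenerator h1 h3 h2 0 M⟩
  tfae_finish

end Pool.Agent.W492.TS
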