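import Pool.Agent.W492.TS.Build

/-!
# Sorting iterated extensions
-/

set_option linter.unusedSectionVars false
set_option linter.style.haveILetI false

open CategoryTheory Limits Triangulated Pretriangulated ZeroObject

namespace Pool.Agent.W492.TS

universe v u v' u' w

section
variable {T : Type u} [Category.{v} T] [HasZeroObject T] [HasShift T ℤ] [Preadditive T]
  [∀ n : ℤ, (shiftFunctor T n).Additive] [Pretriangulated T] [IsTriangulated T]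

theorem tri_iso₂ {X M M' N : T} {f : X ⟶ M} {g : M ⟶ M'} {h : M' ⟶ X⟦(1 : ℤ)⟧}
    (hT : Triangle.mk f g h ∈ distTriang T) (e : M ≅ N) :
    Triangle.mk (f ≫ e.hom) (e.inv ≫ g) h ∈ distTriang T := by
  refine isomorphic_distinguished _ hT _
    (Triangle.isoMk _ _ (Iso.refl _) e.symm (Iso.refl _) ?_ ?_ ?_)
  · change (f ≫ e.hom) ≫ e.inv = 𝟙 X ≫ f
    simp
  · change (e.inv ≫ g) ≫ 𝟙 M' = e.inv ≫ g
    simp
  · change h ≫ (shiftFunctor T (1 : ℤ)).map (𝟙 X) = 𝟙 M' ≫ h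
    simp

theorem tri_iso₃ {X M M' N : T} {f : X ⟶ M} {g : M ⟶ M'} {h : M' ⟶ X⟦(1 : ℤ)⟧}
    (hT : Triangle.mk f g h ∈ distTriang T) (e : M' ≅ N) :
    Triangle.mk f (g ≫ e.hom) (e.inv ≫ h) ∈ distTriang T := by
  refine isomorphic_distinguished _ hT _
    (Triangle.isoMk _ _ (Iso.refl _) (Iso.refl _) e.symm ?_ ?_ ?_)
  · change f ≫ 𝟙 M = 𝟙 X ≫ f
    simp
  · change (g ≫ e.hom) ≫ e.inv = 𝟙 M ≫ g
    simp
  · change (e.inv ≫ h) ≫ (shiftFunctor T (1 : ℤ)).map (𝟙 X) = e.inv ≫ h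
    simp

/-- `Filt 𝒜 l M` : `M` is an iterated extension of objects of `𝒜 n`, where `n` runs through the
list `l` (the first member of `l` being the degree of the innermost subobject). -/
def Filt (𝒜 : ℤ → ObjectProperty T) : List ℤ → ObjectProperty T
  | [] => fun M => IsZero M
  | n :: l => fun M => ∃ (X M' : T) (f : X ⟶ M) (g : M ⟶ M') (h : M' ⟶ X⟦(1 : ℤ)⟧),
      Triangle.mk f g h ∈ distTriang T ∧ 𝒜 n X ∧ Filt 𝒜 l M'

variable {𝒜 : ℤ → ObjectProperty T}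

theorem Filt.of_iso {l : List ℤ} {M N : T} (e : M ≅ N) (hM : Filt 𝒜 l M) : Filt 𝒜 l N := by
  cases l with
  | nil => exact IsZero.of_iso hM e.symm
  | cons n l =>
    obtain ⟨X, M', f, g, h, hT, hX, hM'⟩ := hM
    exact ⟨X, M', f ≫ e.hom, e.inv ≫ g, h, tri_iso₂ hT e, hX, hM'⟩

theorem Filt.concat {l l' : List ℤ} {X Y Z : T} {f : X ⟶ Y} {g : Y ⟶ Z}
    {h : Z ⟶ X⟦(1 : ℤ)⟧} (hT : Triangle.mk f g h ∈ distTriang T) (hX : Filt 𝒜 l X)
    (hZ : Filt 𝒜 l' Z) : Filt 𝒜 (l ++ l') Y := by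
  induction l generalizing X Y with
  | nil =>
    have h1 : IsIso g := (Triangle.isZero₁_iff_isIso₂ _ hT).1 hX
    exact hZ.of_iso (asIso g).symm
  | cons n l ih =>
    obtain ⟨A, X', a, b, c, hT', hA, hX'⟩ := hX
    obtain ⟨Y', p, q, hY'⟩ := distinguished_cocone_triangle (a ≫ f)
    have oct := someOctahedron rfl hT' hT hY'
    exact ⟨A, Y', a ≫ f, p, q, hY', hA, ih oct.mem hX'⟩

theorem Filt.split {l l' : List ℤ} {M : T} (hM : Filt 𝒜 (l ++ l') M) :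
    ∃ (X Z : T) (f : X ⟶ M) (g : M ⟶ Z) (h : Z ⟶ X⟦(1 : ℤ)⟧),
      Triangle.mk f g h ∈ distTriang T ∧ Filt 𝒜 l X ∧ Filt 𝒜 l' Z := by
  induction l generalizing M with
  | nil => exact ⟨0, M, 0, 𝟙 M, 0, contractible_distinguished₁ M, isZero_zero T, hM⟩
  | cons n l ih =>
    obtain ⟨A, M', a, b, c, hT', hA, hM'⟩ := hM
    obtain ⟨X', Z, f', g', h', hT'', hX', hZ⟩ := ih hM'
    obtain ⟨X, p, q, hX⟩ := distinguished_cocone_triangle₁ (b ≫ g')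
    have oct := someOctahedron' rfl hT' hT'' hX
    exact ⟨X, Z, p, b ≫ g', q, hX, ⟨A, X', _, _, _, oct.mem, hA, hX'⟩, hZ⟩

/-- `𝒜` allows to swap. -/
def Swap (𝒜 : ℤ → ObjectProperty T) : Prop :=
  ∀ (n m : ℤ), n < m → ∀ (X M Y : T) (f : X ⟶ M) (g : M ⟶ Y) (h : Y ⟶ X⟦(1 : ℤ)⟧),
    Triangle.mk f g h ∈ distTriang T → 𝒜 m X → 𝒜 n Y →
    ∃ (P Q : T) (p : P ⟶ M) (q : M ⟶ Q) (r : Q ⟶ P⟦(1 : ℤ)⟧),
      Triangle.mk p q r ∈ distTriang T ∧ 𝒜 n P ∧ 𝒜 m Q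

theorem Filt.insert (hs : Swap 𝒜) (m : ℤ) (l : List ℤ) {M : T} (hM : Filt 𝒜 (m :: l) M) :
    Filt 𝒜 (l.orderedInsert (· ≤ ·) m) M := by
  induction l generalizing M with
  | nil => simpa using hM
  | cons n l ih =>
    rw [List.orderedInsert_cons]
    split_ifs with h
    · exact hM
    · have hM2 : Filt 𝒜 ([m, n] ++ l) M := hM
      obtain ⟨M₂, M'', f, g, k, hT, hM₂, hM''⟩ := hM2.split
      obtain ⟨X, Y₀, a, b, c, hT', hX, hY₀⟩ := hM₂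
      obtain ⟨Y, Z₀, a', b', c', hT'', hY, hZ₀⟩ := hY₀
      have h1 : IsIso a' := (Triangle.isZero₃_iff_isIso₁ _ hT'').1 hZ₀
      have hT3 := tri_iso₃ hT' (@asIso _ _ _ _ a' h1).symm
      obtain ⟨P, Q, p, q, r, hT4, hP, hQ⟩ := hs n m (not_le.1 h) X M₂ Y _ _ _ hT3 hX hY
      have hQ' : Filt 𝒜 [m] Q :=
        ⟨Q, 0, 𝟙 Q, 0, 0, contractible_distinguished Q, hQ, isZero_zero T⟩
      have hM₂' : Filt 𝒜 [n, m] M₂ := ⟨P, Q, p, q, r, hT4, hP, hQ'⟩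
      have hM3 : Filt 𝒜 ([n, m] ++ l) M := hM₂'.concat hT hM''
      obtain ⟨P', N, a₁, a₂, a₃, hT5, hP', hN⟩ := hM3
      exact ⟨P', N, a₁, a₂, a₃, hT5, hP', ih hN⟩

theorem Filt.sort (hs : Swap 𝒜) (l : List ℤ) {M : T} (hM : Filt 𝒜 l M) :
    Filt 𝒜 (l.insertionSort (· ≤ ·)) M := by
  induction l generalizing M with
  | nil => simpa using hM
  | cons n l ih =>
    obtain ⟨X, M', f, g, h, hT, hX, hM'⟩ := hM
    rw [List.insertionSort_cons]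
    exact Filt.insert hs n _ ⟨X, M', f, g, h, hT, hX, ih hM'⟩

theorem Filt.of_forall {P : ObjectProperty T} (hz : ∀ X, IsZero X → P X)
    (hext : ∀ (X Y Z : T) (f : X ⟶ Y) (g : Y ⟶ Z) (h : Z ⟶ X⟦(1 : ℤ)⟧),
      Triangle.mk f g h ∈ distTriang T → P X → P Z → P Y) {l : List ℤ}
    (h𝒜 : ∀ n ∈ l, 𝒜 n ≤ P) {M : T} (hM : Filt 𝒜 l M) : P M := by
  induction l generalizing M with
  | nil => exact hz M hM
  | cons n l ih =>
    obtain ⟨X, M', f, g, h, hT, hX, hM'⟩ := hM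
    exact hext _ _ _ _ _ _ hT (h𝒜 n (by simp) X hX)
      (ih (fun m hm => h𝒜 m (by simp [hm])) hM')

theorem exists_split_sorted (k : ℤ) (l : List ℤ) (hl : l.Pairwise (· ≤ ·)) :
    ∃ a b : List ℤ, l = a ++ b ∧ (∀ x ∈ a, x ≤ k) ∧ (∀ x ∈ b, k + 1 ≤ x) := by
  induction l with
  | nil => exact ⟨[], [], rfl, by simp, by simp⟩
  | cons n l ih =>
    rw [List.pairwise_cons] at hl
    by_cases h : n ≤ k
    · obtain ⟨a, b, hab, ha, hb⟩ := ih hl.2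
      refine ⟨n :: a, b, by rw [hab]; rfl, ?_, hb⟩
      intro x hx
      rcases List.mem_cons.1 hx with rfl | hx
      · exact h
      · exact ha x hx
    · refine ⟨[], n :: l, rfl, by simp, ?_⟩
      intro x hx
      rcases List.mem_cons.1 hx with rfl | hx
      · omega
      · have := hl.1 x hx
        omega

end

end Pool.Agent.W492.TS
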