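import Mathlib

/-!
# Tensor triangulated categories and t-structures : vanishing lemmas
-/

set_option linter.unusedSectionVars false
set_option linter.style.haveILetI false

open CategoryTheory Limits MonoidalCategory Triangulated Pretriangulated

namespace Pool.Agent.W492.TS

universe v u

variable {T : Type u} [Category.{v} T] [HasZeroObject T] [HasShift T ℤ] [Preadditive T]
  [∀ n : ℤ, (shiftFunctor T n).Additive] [Pretriangulated T] [IsTriangulated T]
  [MonoidalCategory T] [SymmetricCategory T] [RightRigidCategory T]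
  [∀ X : T, (tensorLeft X).CommShift ℤ] [∀ X : T, (tensorLeft X).IsTriangulated]

/-- `A ⊗ (B ⊗ C) ≅ B ⊗ (A ⊗ C)`. -/
noncomputable def swapIso (A B C : T) : A ⊗ (B ⊗ C) ≅ B ⊗ (A ⊗ C) :=
  (α_ A B C).symm ≪≫ whiskerRightIso (β_ A B) C ≪≫ α_ B A C

theorem isZero_tensor (X : T) {Y : T} (h : IsZero Y) : IsZero (X ⊗ Y) :=
  (tensorLeft X).map_isZero h

theorem isZero_tensor' {X : T} (Y : T) (h : IsZero X) : IsZero (X ⊗ Y) :=
  (isZero_tensor Y h).of_iso (β_ X Y)

theorem isZero_dual_tensor {W Z : T} (h : IsZero (W ⊗ Z)) : IsZero (Wᘁ ⊗ Z) := by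
  rw [IsZero.iff_id_eq_zero]
  apply ((tensorLeftAdjunction W Wᘁ).homEquiv Z (Wᘁ ⊗ Z)).injective
  have h1 : IsZero (W ⊗ (Wᘁ ⊗ Z)) := (isZero_tensor Wᘁ h).of_iso (swapIso W Wᘁ Z)
  exact h1.eq_of_tgt _ _

/-- if `W ⊗ Z = 0` then every morphism `W ⟶ Z` is zero. -/
theorem hom_eq_zero {W Z : T} (h : IsZero (W ⊗ Z)) (f : W ⟶ Z) : f = 0 := by
  have h1 := isZero_dual_tensor h
  letI : ExactPairing Wᘁ W := BraidedCategory.exactPairing_swap W Wᘁ
  have h2 : (ρ_ W).hom ≫ f = 0 := by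
    apply ((tensorLeftAdjunction Wᘁ W).homEquiv (𝟙_ T) Z).injective
    exact h1.eq_of_tgt _ _
  rwa [← cancel_epi (ρ_ W).hom, comp_zero]

theorem isZero_of_tensor_self {N : T} (h : IsZero (N ⊗ N)) : IsZero N := by
  rw [IsZero.iff_id_eq_zero]
  exact hom_eq_zero h _

theorem isZero_tensor_shift {X Y : T} (h : IsZero (X ⊗ Y)) (n : ℤ) : IsZero (X ⊗ (Y⟦n⟧)) :=
  ((shiftFunctor T n).map_isZero h).of_iso (((tensorLeft X).commShiftIso n).app Y)

end Pool.Agent.W492.TS
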