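import Pool.Agent.W492.TS.Tensor

/-!
# The unit of a tensor t-structure lies in the heart
-/

set_option linter.unusedSectionVars false
set_option linter.style.haveILetI false

open CategoryTheory Limits MonoidalCategory Triangulated Pretriangulated

namespace Pool.Agent.W492.TS

universe v u

section
variable {C : Type u} [Category.{v} C] [HasZeroObject C] [HasShift C ℤ] [Preadditive C]
  [∀ n : ℤ, (shiftFunctor C n).Additive] [Pretriangulated C]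

/-- the t-structure is non-degenerate. -/
def NonDegenerate (t : TStructure C) : Prop :=
  (∀ X, (∀ n, t.le n X) → IsZero X) ∧ (∀ X, (∀ n, t.ge n X) → IsZero X)

theorem isLE_obj₃ [IsTriangulated C] (t : TStructure C) {X Y Z : C} {f : X ⟶ Y} {g : Y ⟶ Z}
    {h : Z ⟶ X⟦(1 : ℤ)⟧} (hT : Triangle.mk f g h ∈ distTriang C) (n : ℤ) (hX : t.IsLE X (n + 1))
    (hY : t.IsLE Y n) : t.IsLE Z n := by
  have h1 := t.isLE_shift X (n + 1) 1 n
  exact t.isLE₂ _ (rot_of_distTriang _ hT) n hY h1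

theorem isGE_obj₁ [IsTriangulated C] (t : TStructure C) {X Y Z : C} {f : X ⟶ Y} {g : Y ⟶ Z}
    {h : Z ⟶ X⟦(1 : ℤ)⟧} (hT : Triangle.mk f g h ∈ distTriang C) (n : ℤ) (hY : t.IsGE Y n)
    (hZ : t.IsGE Z (n - 1)) : t.IsGE X n := by
  have h1 := t.isGE_shift Z (n - 1) (-1) n
  exact t.isGE₂ _ (inv_rot_of_distTriang _ hT) n h1 hY

end

variable {T : Type u} [Category.{v} T] [HasZeroObject T] [HasShift T ℤ] [Preadditive T]
  [∀ n : ℤ, (shiftFunctor T n).Additive] [Pretriangulated T] [IsTriangulated T]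
  [MonoidalCategory T] [SymmetricCategory T] [RightRigidCategory T]
  [∀ X : T, (tensorLeft X).CommShift ℤ] [∀ X : T, (tensorLeft X).IsTriangulated]

/-- Tensoring with an object of the heart is t-exact. -/
def HeartTensorExact (t : TStructure T) : Prop :=
  ∀ X : T, t.le 0 X → t.ge 0 X → ∀ (n : ℤ) (Y : T),
    (t.le n Y → t.le n (X ⊗ Y)) ∧ (t.ge n Y → t.ge n (X ⊗ Y))

/-- the distinguished triangle `X ⊗ A → X ⊗ B → X ⊗ C`. -/
theorem tensor_triangle (X : T) {A B C : T} {f : A ⟶ B} {g : B ⟶ C} {h : C ⟶ A⟦(1 : ℤ)⟧}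
    (hT : Triangle.mk f g h ∈ distTriang T) :
    ∃ h' : X ⊗ C ⟶ (X ⊗ A)⟦(1 : ℤ)⟧, Triangle.mk (X ◁ f) (X ◁ g) h' ∈ distTriang T :=
  ⟨_, (tensorLeft X).map_distinguished _ hT⟩

variable (t : TStructure T)

section
variable {t}

theorem HeartTensorExact.isLE (hten : HeartTensorExact t) {X : T} (h1 : t.IsLE X 0)
    (h2 : t.IsGE X 0) {Y : T} {n : ℤ} (hY : t.IsLE Y n) : t.IsLE (X ⊗ Y) n :=
  ⟨(hten X h1.le h2.ge n Y).1 hY.le⟩

theorem HeartTensorExact.isGE (hten : HeartTensorExact t) {X : T} (h1 : t.IsLE X 0)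
    (h2 : t.IsGE X 0) {Y : T} {n : ℤ} (hY : t.IsGE Y n) : t.IsGE (X ⊗ Y) n :=
  ⟨(hten X h1.le h2.ge n Y).2 hY.ge⟩

/-- An object `N` concentrated in degree `n` with `N⟦n⟧ ⊗ N = 0` vanishes. -/
theorem isZero_of_shift_tensor {N : T} (n : ℤ) (h : IsZero (N⟦n⟧ ⊗ N)) : IsZero N := by
  have h1 : IsZero (N⟦n⟧ ⊗ N⟦n⟧) := isZero_tensor_shift h n
  have h2 := isZero_of_tensor_self h1
  have h3 : IsZero (N⟦n⟧⟦-n⟧) := (shiftFunctor T (-n)).map_isZero h2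
  exact h3.of_iso ((shiftEquiv T n).unitIso.app N)

theorem unit_step_ge (hten : HeartTensorExact t) (n : ℤ) (hn : 1 ≤ n)
    (hB : t.IsGE ((t.truncGE 1).obj (𝟙_ T)) n) : t.IsGE ((t.truncGE 1).obj (𝟙_ T)) (n + 1) := by
  set B := (t.truncGE 1).obj (𝟙_ T) with hBdef
  set A := (t.truncLT 1).obj (𝟙_ T) with hAdef
  have hA : t.IsLE A 0 := t.isLE_truncLT_obj (𝟙_ T) 1 0
  rw [t.isGE_iff_isZero_truncLE_obj n (n + 1) rfl]
  set N := (t.truncLE n).obj B with hNdef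
  have hN1 : t.IsLE N n := inferInstance
  have hN2 : t.IsGE N n := by
    have : t.IsGE ((t.truncLT (n + 1)).obj B) n := inferInstance
    exact this
  have hN1' : t.IsLE (N⟦n⟧) 0 := t.isLE_shift N n n 0
  have hN2' : t.IsGE (N⟦n⟧) 0 := t.isGE_shift N n n 0
  have hT1 : Triangle.mk ((t.truncLTι 1).app (𝟙_ T)) ((t.truncGEπ 1).app (𝟙_ T))
    ((t.truncGEδLT 1).app (𝟙_ T)) ∈ distTriang T := t.triangleLTGE_distinguished 1 (𝟙_ T)
  obtain ⟨h1, hT1'⟩ := tensor_triangle (N⟦n⟧) hT1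
  have hunit : t.IsLE (N⟦n⟧ ⊗ 𝟙_ T) 0 := t.isLE_of_iso (ρ_ (N⟦n⟧)).symm 0
  have hNA : t.IsLE (N⟦n⟧ ⊗ A) 0 := hten.isLE hN1' hN2' hA
  have hNB1 : t.IsLE (N⟦n⟧ ⊗ B) 0 := isLE_obj₃ t hT1' 0 (t.isLE_of_le _ 0 1) hunit
  have hNB2 : t.IsGE (N⟦n⟧ ⊗ B) n := hten.isGE hN1' hN2' hB
  have hNB : IsZero (N⟦n⟧ ⊗ B) := t.isZero _ 0 n
  have hT2 : Triangle.mk ((t.truncLTι (n + 1)).app B) ((t.truncGEπ (n + 1)).app B)
    ((t.truncGEδLT (n + 1)).app B) ∈ distTriang T := t.triangleLTGE_distinguished (n + 1) B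
  obtain ⟨h2, hT2'⟩ := tensor_triangle (N⟦n⟧) hT2
  have hNB' : t.IsGE (N⟦n⟧ ⊗ (t.truncGE (n + 1)).obj B) (n + 1) :=
    hten.isGE hN1' hN2' inferInstance
  have hNN1 : t.IsGE (N⟦n⟧ ⊗ N) (n + 2) :=
    isGE_obj₁ t hT2' (n + 2) (t.isGE_of_isZero hNB _) (by
      have : n + 2 - 1 = n + 1 := by ring
      rw [this]; exact hNB')
  have hNN2 : t.IsLE (N⟦n⟧ ⊗ N) n := hten.isLE hN1' hN2' hN1
  have hNN : IsZero (N⟦n⟧ ⊗ N) := t.isZero _ n (n + 2)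
  exact isZero_of_shift_tensor n hNN

theorem unit_step_le (hten : HeartTensorExact t) (n : ℤ) (hn : 1 ≤ n)
    (hA : t.IsLE ((t.truncLT 0).obj (𝟙_ T)) (-n)) :
    t.IsLE ((t.truncLT 0).obj (𝟙_ T)) (-n - 1) := by
  set B := (t.truncGE 0).obj (𝟙_ T) with hBdef
  set A := (t.truncLT 0).obj (𝟙_ T) with hAdef
  have hB : t.IsGE B 0 := inferInstance
  rw [t.isLE_iff_isZero_truncGE_obj (-n - 1) (-n) (by ring)]
  set N := (t.truncGE (-n)).obj A with hNdef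
  have hN1 : t.IsLE N (-n) := inferInstance
  have hN2 : t.IsGE N (-n) := inferInstance
  have hN1' : t.IsLE (N⟦-n⟧) 0 := t.isLE_shift N (-n) (-n) 0
  have hN2' : t.IsGE (N⟦-n⟧) 0 := t.isGE_shift N (-n) (-n) 0
  have hT1 : Triangle.mk ((t.truncLTι 0).app (𝟙_ T)) ((t.truncGEπ 0).app (𝟙_ T))
    ((t.truncGEδLT 0).app (𝟙_ T)) ∈ distTriang T := t.triangleLTGE_distinguished 0 (𝟙_ T)
  obtain ⟨h1, hT1'⟩ := tensor_triangle (N⟦-n⟧) hT1
  have hunit : t.IsGE (N⟦-n⟧ ⊗ 𝟙_ T) 0 := t.isGE_of_iso (ρ_ (N⟦-n⟧)).symm 0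
  have hNB : t.IsGE (N⟦-n⟧ ⊗ B) 0 := hten.isGE hN1' hN2' hB
  have hNA1 : t.IsGE (N⟦-n⟧ ⊗ A) 0 := isGE_obj₁ t hT1' 0 hunit (t.isGE_of_ge _ (0 - 1) 0)
  have hNA2 : t.IsLE (N⟦-n⟧ ⊗ A) (-n) := hten.isLE hN1' hN2' hA
  have hNA : IsZero (N⟦-n⟧ ⊗ A) := t.isZero _ (-n) 0
  have hT2 : Triangle.mk ((t.truncLTι (-n)).app A) ((t.truncGEπ (-n)).app A)
    ((t.truncGEδLT (-n)).app A) ∈ distTriang T := t.triangleLTGE_distinguished (-n) A
  obtain ⟨h2, hT2'⟩ := tensor_triangle (N⟦-n⟧) hT2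
  have hNA' : t.IsLE (N⟦-n⟧ ⊗ (t.truncLT (-n)).obj A) (-n - 1) :=
    hten.isLE hN1' hN2' inferInstance
  have hNN1 : t.IsLE (N⟦-n⟧ ⊗ N) (-n - 2) :=
    isLE_obj₃ t hT2' (-n - 2) (by
      have : -n - 2 + 1 = -n - 1 := by ring
      rw [this]; exact hNA') (t.isLE_of_isZero hNA _)
  have hNN2 : t.IsGE (N⟦-n⟧ ⊗ N) (-n) := hten.isGE hN1' hN2' hN2
  have hNN : IsZero (N⟦-n⟧ ⊗ N) := t.isZero _ (-n - 2) (-n)
  exact isZero_of_shift_tensor (-n) hNN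

/-- The unit lies in the heart. -/
theorem unit_mem_heart (hnd : NonDegenerate t) (hten : HeartTensorExact t) :
    t.IsLE (𝟙_ T) 0 ∧ t.IsGE (𝟙_ T) 0 := by
  constructor
  · rw [t.isLE_iff_isZero_truncGE_obj 0 1 rfl]
    apply hnd.2
    have key : ∀ n : ℕ, t.IsGE ((t.truncGE 1).obj (𝟙_ T)) (n + 1) := by
      intro n
      induction n with
      | zero => exact inferInstanceAs (t.IsGE ((t.truncGE 1).obj (𝟙_ T)) 1)
      | succ n ih =>
        have := unit_step_ge hten (n + 1) (by omega) ih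
        simpa using this
    intro n
    have h1 := key n.toNat
    exact (t.isGE_of_ge _ n (n.toNat + 1)).ge
  · rw [t.isGE_iff_isZero_truncLT_obj 0]
    apply hnd.1
    have key : ∀ n : ℕ, t.IsLE ((t.truncLT 0).obj (𝟙_ T)) (-(n + 1)) := by
      intro n
      induction n with
      | zero => exact t.isLE_truncLT_obj (𝟙_ T) 0 _
      | succ n ih =>
        have := unit_step_le hten (n + 1) (by omega) ih
        have h2 : -((n : ℤ) + 1) - 1 = -(((n + 1 : ℕ) : ℤ) + 1) := by push_cast; ring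
        rwa [h2] at this
    intro n
    have h1 := key (-n).toNat
    exact (t.isLE_of_le _ (-(((-n).toNat : ℤ) + 1)) n).le

end

end Pool.Agent.W492.TS
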